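import Pool.Agent.MWS.StmtsB

/-!
# MWS row RDC (helper67)

Reduction: every letter occurs at most twice in every block.  As long as a letter occurs three times
in a block, its second occurrence can be removed by `Itr`; this does not change the counts up to `2`
and the relations `Bef`.
-/

namespace Pool.Agent.MWS.H67

open Pool.Agent.Helper14_MV Pool.Agent.Helper2_MV Pool.Agent.MVO Pool.Agent.MWL Pool.Agent.MWS

theorem bef_nil (c d : ℕ) : Bef [] c d := by
  intro P Q h
  have h1 := congrArg List.length h
  simp at h1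

theorem bef_cons (a : ℕ) (l : List ℕ) (c d : ℕ) :
    Bef (a :: l) c d ↔ ((a = d → c ∉ l) ∧ Bef l c d) := by
  constructor
  · intro h
    refine ⟨?_, ?_⟩
    · rintro rfl
      exact h [] l rfl
    · intro P Q hl
      exact h (a :: P) Q (by rw [hl]; rfl)
  · rintro ⟨h1, h2⟩ P Q hl
    rcases P with _ | ⟨b, P⟩
    · have h3 : a :: l = d :: Q := hl
      have h4 := (List.cons.inj h3).1
      have h5 := (List.cons.inj h3).2
      rw [← h5]
      exact h1 h4
    · have h3 : a :: l = b :: (P ++ d :: Q) := hl
      exact h2 P Q (List.cons.inj h3).2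

theorem bef_append (A l : List ℕ) (c d : ℕ) :
    Bef (A ++ l) c d ↔ (Bef A c d ∧ Bef l c d ∧ (d ∈ A → c ∉ l)) := by
  induction A with
  | nil =>
    constructor
    · intro h
      exact ⟨bef_nil c d, h, fun hm => absurd hm (List.not_mem_nil)⟩
    · intro h
      exact h.2.1
  | cons a A ih =>
    rw [List.cons_append, bef_cons, bef_cons, ih]
    constructor
    · rintro ⟨h1, h2, h3, h4⟩
      refine ⟨⟨fun ha => ?_, h2⟩, h3, fun hm => ?_⟩
      · intro hm
        exact h1 ha (List.mem_append_left _ hm)
      · rcases List.mem_cons.1 hm with hm | hm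
        · intro hc
          exact h1 hm.symm (List.mem_append_right _ hc)
        · exact h4 hm
    · rintro ⟨⟨h1, h2⟩, h3, h4⟩
      refine ⟨fun ha hm => ?_, h2, h3, fun hm => h4 (List.mem_cons_of_mem _ hm)⟩
      rcases List.mem_append.1 hm with hm | hm
      · exact h1 ha hm
      · exact h4 (by rw [← ha]; exact List.mem_cons_self) hm

theorem bef_mid (P1 P2 Q1 Q2 : List ℕ) {x c d : ℕ} (hcd : c ≠ d) :
    Bef (P1 ++ x :: (P2 ++ x :: (Q1 ++ x :: Q2))) c d ↔
      Bef (P1 ++ x :: (P2 ++ (Q1 ++ x :: Q2))) c d := by
  simp only [bef_append, bef_cons, List.mem_append, List.mem_cons]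
  by_cases h1 : c = x
  · subst h1
    have h2 : ¬ c = d := hcd
    tauto
  · by_cases h2 : x = d
    · subst h2
      tauto
    · tauto

theorem three {l : List ℕ} {x : ℕ} (h : 3 ≤ l.count x) :
    ∃ P1 P2 Q1 Q2, l = P1 ++ x :: (P2 ++ x :: (Q1 ++ x :: Q2)) := by
  have one : ∀ {l : List ℕ} {n : ℕ}, n + 1 ≤ l.count x → ∃ P Q, l = P ++ x :: Q ∧ n ≤ Q.count x := by
    intro l n h
    obtain ⟨P, Q, h1, h2⟩ := List.eq_append_cons_of_mem (List.count_pos_iff.1 (by omega : 0 < l.count x))
    refine ⟨P, Q, h1, ?_⟩
    rw [h1, List.count_append, List.count_cons_self, List.count_eq_zero.2 h2] at h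
    omega
  obtain ⟨P1, R1, e1, n1⟩ := one (n := 2) h
  obtain ⟨P2, R2, e2, n2⟩ := one (n := 1) n1
  obtain ⟨Q1, Q2, e3, n3⟩ := one (n := 0) n2
  exact ⟨P1, P2, Q1, Q2, by rw [e1, e2, e3]⟩

theorem rdc : RdcStmt := by
  intro β hI k
  have main : ∀ n : ℕ, ∀ B : ℕ → List ℕ, (asm k B).length = n → OkB k B →
      ∃ C : ℕ → List ℕ, OkB k C ∧ RR β (asm k B) (asm k C) ∧
        (∀ j ≤ k, ∀ c, (C j).count c = min ((B j).count c) 2) ∧
        ∀ j ≤ k, ∀ c d, c ≠ d → (Bef (B j) c d ↔ Bef (C j) c d) := by
    intro n
    induction n using Nat.strong_induction_on with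
    | _ n ih =>
    intro B hn hB
    by_cases hall : ∀ j ≤ k, ∀ c, (B j).count c ≤ 2
    · exact ⟨B, hB, RR.refl _, fun j hj c => (min_eq_left (hall j hj c)).symm,
        fun j hj c d _ => Iff.rfl⟩
    · push Not at hall
      obtain ⟨i, hi, x, hx⟩ := hall
      obtain ⟨P1, P2, Q1, Q2, e⟩ := three (by omega : 3 ≤ (B i).count x)
      obtain ⟨B1, hB1⟩ : ∃ B1, B1 = Function.update B i (P1 ++ x :: (P2 ++ (Q1 ++ x :: Q2))) :=
        ⟨_, rfl⟩
      have e1 : B1 i = P1 ++ x :: (P2 ++ (Q1 ++ x :: Q2)) := by
        rw [hB1, Function.update_self]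
      have e2 : ∀ j, j ≠ i → B1 j = B j := by
        intro j hj
        rw [hB1, Function.update_of_ne hj]
      have a0 : asm k B = (pre B i ++ P1) ++ x :: (P2 ++ x :: (Q1 ++ x ::
          (Q2 ++ suf B i (k - i)))) := by
        rw [asm_split hi B, e]
        simp only [List.append_assoc, List.cons_append]
      have a1 : asm k B1 = (pre B i ++ P1) ++ x :: (P2 ++ (Q1 ++ x ::
          (Q2 ++ suf B i (k - i)))) := by
        rw [hB1, asm_update hi]
        simp only [List.append_assoc, List.cons_append]
      have c1 : ∀ c, c ≠ x → (B1 i).count c = (B i).count c := by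
        intro c hc
        rw [e1, e]
        simp only [List.count_append, List.count_cons_of_ne (Ne.symm hc)]
      have c2 : ∀ c, c ≠ x → ∀ j, (B1 j).count c = (B j).count c := by
        intro c hc j
        by_cases hj : j = i
        · rw [hj]
          exact c1 c hc
        · rw [e2 j hj]
      have c3 : 2 ≤ (B1 i).count x := by
        rw [e1]
        simp only [List.count_append, List.count_cons_self]
        omega
      have m1 : ∀ j, ∀ c ∈ B1 j, c ∈ B j := by
        intro j c hc
        by_cases hj : j = i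
        · subst hj
          rw [e]
          rw [e1] at hc
          simp only [List.mem_append, List.mem_cons] at hc ⊢
          tauto
        · rw [e2 j hj] at hc
          exact hc
      have hok : BlkOk k B1 := fun j hj c hc => hB.ok j hj c (m1 j c hc)
      have hm : ∀ c, (∃ j ≤ k, c ∈ B j) → 2 ≤ deg k (fun j => (B1 j).count c) := by
        rintro c ⟨j, hj, hc⟩
        by_cases hcx : c = x
        · subst hcx
          have h1 : (B1 i).count c ≤ deg k (fun j => (B1 j).count c) := by
            unfold deg
            exact Finset.single_le_sum (f := fun j => (B1 j).count c) (fun _ _ => Nat.zero_le _)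
              (Finset.mem_range.2 (by omega))
          omega
        · have h1 : (fun j => (B1 j).count c) = fun j => (B j).count c :=
            funext (fun j => c2 c hcx j)
          rw [h1]
          exact hB.ml j hj c hc
      have hB1' : OkB k B1 := ⟨hok, fun j hj c hc => hm c ⟨j, hj, m1 j c hc⟩⟩
      have hr : RR β (asm k B) (asm k B1) := by
        rw [a0]
        rw [a1]
        apply RR.symm
        apply hI
        intro c hc
        rw [← a1]
        have hci : c ∈ B i := by
          rw [e]
          simp only [List.mem_append, List.mem_cons]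
          tauto
        rw [count_asm (hB.ok i hi c hci)]
        exact hm c ⟨i, hi, hci⟩
      have hl : (asm k B1).length < n := by
        rw [← hn, a0, a1]
        simp only [List.length_append, List.length_cons]
        omega
      obtain ⟨C, hC, hrC, hcC, hbC⟩ := ih _ hl B1 rfl hB1'
      refine ⟨C, hC, β.trans hr hrC, ?_, ?_⟩
      · intro j hj c
        rw [hcC j hj c]
        by_cases hcx : c = x
        · by_cases hji : j = i
          · rw [hcx, hji, min_eq_right c3, min_eq_right (by omega)]
          · rw [e2 j hji]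
        · rw [c2 c hcx j]
      · intro j hj c d hcd
        rw [← hbC j hj c d hcd]
        by_cases hji : j = i
        · rw [hji, e, e1]
          exact bef_mid P1 P2 Q1 Q2 hcd
        · rw [e2 j hji]
  intro B hB
  obtain ⟨C, hC, hrC, hcC, hbC⟩ := main _ B rfl hB
  refine ⟨C, hC, ?_, hrC, hcC, hbC⟩
  intro c _ j hj
  show (B j).count c = (C j).count c ∨ (2 ≤ (B j).count c ∧ 2 ≤ (C j).count c)
  rw [hcC j hj c]
  rcases Nat.le_total ((B j).count c) 2 with h | h
  · left
    rw [min_eq_left h]
  · right
    rw [min_eq_right h]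
    exact ⟨h, le_rfl⟩

end Pool.Agent.MWS.H67
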