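import Pool.Agent.MWS.StmtsW

/-!
# MWS row XCW (helper67)

The class W1 has the visibility relation `VW`: the fact `all x before all y` in block `i` is visible
iff `x` does not occur behind the block `i`.
-/

namespace Pool.Agent.MWS.H67

open Pool.Agent.Helper14_MV Pool.Agent.Helper2_MV Pool.Agent.MVO Pool.Agent.MWL Pool.Agent.MWS

/-- the letters `0`, `1` are replaced by `x`, `y` -/
def hh (x y : ℕ) : ℕ → List ℕ := fun c => if c = 0 then [x] else [y]

/-- the middle part of a canonical block -/
def mid (x y : ℕ) (l : List ℕ) (e : Bool) : List ℕ :=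
  (bl (hv (l.count x)) (hv (l.count y)) e).flatMap (hh x y)

theorem hv_pos {n : ℕ} (h : n ≠ 0) : hv n = 2 := by
  unfold hv
  rw [if_neg h]

theorem hv_zero {n : ℕ} (h : n = 0) : hv n = 0 := by
  unfold hv
  rw [if_pos h]

theorem visW : VisOk VW where
  ext := by
    intro k a b a' b' i h hV
    obtain ⟨h1, h2, h3, h4⟩ := hV
    refine ⟨h1, fun h5 => h2 ((h i h1).1.2 h5), fun h5 => h3 ((h i h1).2.2 h5), ?_⟩
    intro j hj hk
    exact (h j hk).1.1 (h4 j hj hk)
  mem := by
    intro k a b i hV
    exact ⟨hV.1, hV.2.1, hV.2.2.1⟩
  uni := by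
    intro k a b i i' h h'
    obtain ⟨h1, h2, h3, h4⟩ := h
    obtain ⟨h1', h2', h3', h4'⟩ := h'
    rcases lt_trichotomy i i' with h5 | h5 | h5
    · exact absurd (h4 i' h5 h1') h2'
    · exact h5
    · exact absurd (h4' i h5 h1) h2
  unj := by
    intro k a b i i' h h'
    obtain ⟨h1, h2, h3, h4⟩ := h
    obtain ⟨h1', h2', h3', h4'⟩ := h'
    rcases lt_trichotomy i i' with h5 | h5 | h5
    · exact absurd (h4 i' h5 h1') h3'
    · exact h5
    · exact absurd (h4' i h5 h1) h3

theorem itrW (hewl : EwlStmt) {β : FIC} (hβ : ClW β) : Itr β := by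
  intro p w w' q x hc
  refine hewl β hβ w p (w' ++ x :: q) x ?_ (fun c hcw => hc c (Or.inl hcw))
  exact List.mem_append_right _ List.mem_cons_self

/-- one block in a context which contains `x` and `y` -/
theorem oneBlock (hidx : IdxStmt) (hewl : EwlStmt) {β : FIC} (hβ : ClW β) (x y : ℕ)
    (l : List ℕ) : ∃ (P Q : List ℕ) (e : Bool),
      (∀ c, l.count c ≤ (P ++ mid x y l e ++ Q).count c) ∧
      ∀ p q : List ℕ, (x ∈ l → y ∈ l → x ∈ q ∧ y ∈ q) → (x ∈ p ∨ x ∈ q) → (y ∈ p ∨ y ∈ q) →
        (∀ c ∈ l, 2 ≤ (p ++ l ++ q).count c) →
          RR β (p ++ l ++ q) (p ++ (P ++ mid x y l e ++ Q) ++ q) := by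
  by_cases hx : x ∈ l
  · have hcx : hv (l.count x) = 2 := hv_pos (Nat.pos_iff_ne_zero.1 (List.count_pos_iff.2 hx))
    by_cases hy : y ∈ l
    · have hcy : hv (l.count y) = 2 := hv_pos (Nat.pos_iff_ne_zero.1 (List.count_pos_iff.2 hy))
      obtain ⟨U, V, hUV⟩ := List.append_of_mem hy
      by_cases hxy : x = y
      · -- degenerate: all four letters are equal
        subst hxy
        have hm : mid x x l false = [x, x, x, x] := by
          unfold mid
          rw [hcx]
          rfl
        refine ⟨U, V, false, ?_, ?_⟩
        · intro c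
          rw [hm, hUV]
          simp only [List.count_append, List.count_cons, List.count_nil]
          split <;> omega
        · intro p q hb h1 _ _
          rw [hm]
          have h2 := hidx β hβ.toClX (p ++ U) (V ++ q) x (by
            rcases h1 with h1 | h1
            · exact Or.inl (List.mem_append_left _ h1)
            · exact Or.inr (List.mem_append_right _ h1)) 4 (by norm_num)
          have e1 : p ++ l ++ q = (p ++ U) ++ x :: (V ++ q) := by
            rw [hUV]
            simp
          have e2 : p ++ (U ++ [x, x, x, x] ++ V) ++ q =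
              (p ++ U) ++ (List.replicate 4 x ++ (V ++ q)) := by
            simp [List.replicate]
          rw [e1, e2]
          exact h2
      rcases (by
        rw [hUV] at hx
        rcases List.mem_append.1 hx with h | h
        · exact Or.inl h
        · rcases List.mem_cons.1 h with h | h
          · exact absurd h hxy
          · exact Or.inr h : x ∈ U ∨ x ∈ V) with hxU | hxV
      · -- an `x` before a `y`
        obtain ⟨P1, P2, hP⟩ := List.append_of_mem hxU
        have hm : mid x y l true = [y, y, x, x] := by
          unfold mid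
          rw [hcx, hcy]
          rfl
        refine ⟨P1 ++ x :: P2, V, true, ?_, ?_⟩
        · intro c
          rw [hm, hUV, hP]
          simp only [List.count_append, List.count_cons, List.count_nil]
          omega
        · intro p q hb _ _ hc
          rw [hm]
          obtain ⟨hxq, hyq⟩ := hb hx hy
          have e0 : p ++ l ++ q = (p ++ P1) ++ x :: ((P2 ++ [y]) ++ (V ++ q)) := by
            rw [hUV, hP]
            simp
          have s1 := hewl β hβ (P2 ++ [y]) (p ++ P1) (V ++ q) x (List.mem_append_right _ hxq) (by
            intro c hcm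
            rw [← e0]
            apply hc
            rw [hUV, hP]
            simp only [List.mem_append, List.mem_cons, List.not_mem_nil, or_false] at hcm ⊢
            tauto)
          have s2 := hidx β hβ.toClX (p ++ P1 ++ x :: P2) (x :: (V ++ q)) y
            (Or.inr (List.mem_cons_of_mem _ (List.mem_append_right _ hyq))) 2 (by norm_num)
          have s3 := hidx β hβ.toClX (p ++ P1 ++ x :: P2 ++ [y, y]) (V ++ q) x
            (Or.inr (List.mem_append_right _ hxq)) 2 (by norm_num)
          have e1 : (p ++ P1) ++ x :: ((P2 ++ [y]) ++ x :: (V ++ q)) =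
              (p ++ P1 ++ x :: P2) ++ y :: (x :: (V ++ q)) := by simp
          have e2 : (p ++ P1 ++ x :: P2) ++ (List.replicate 2 y ++ (x :: (V ++ q))) =
              (p ++ P1 ++ x :: P2 ++ [y, y]) ++ x :: (V ++ q) := by simp [List.replicate]
          have e3 : (p ++ P1 ++ x :: P2 ++ [y, y]) ++ (List.replicate 2 x ++ (V ++ q)) =
              p ++ (P1 ++ x :: P2 ++ [y, y, x, x] ++ V) ++ q := by simp [List.replicate]
          rw [e1] at s1
          rw [e2] at s2
          rw [e3] at s3
          rw [e0]
          exact β.trans s1 (β.trans s2 s3)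
      · -- a `y` before an `x`
        obtain ⟨V1, V2, hV⟩ := List.append_of_mem hxV
        have hm : mid x y l false = [x, x, y, y] := by
          unfold mid
          rw [hcx, hcy]
          rfl
        refine ⟨U ++ y :: V1, V2, false, ?_, ?_⟩
        · intro c
          rw [hm, hUV, hV]
          simp only [List.count_append, List.count_cons, List.count_nil]
          omega
        · intro p q hb _ _ hc
          rw [hm]
          obtain ⟨hxq, hyq⟩ := hb hx hy
          have e0 : p ++ l ++ q = (p ++ U) ++ y :: ((V1 ++ [x]) ++ (V2 ++ q)) := by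
            rw [hUV, hV]
            simp
          have s1 := hewl β hβ (V1 ++ [x]) (p ++ U) (V2 ++ q) y (List.mem_append_right _ hyq) (by
            intro c hcm
            rw [← e0]
            apply hc
            rw [hUV, hV]
            simp only [List.mem_append, List.mem_cons, List.not_mem_nil, or_false] at hcm ⊢
            tauto)
          have s2 := hidx β hβ.toClX (p ++ U ++ y :: V1) (y :: (V2 ++ q)) x
            (Or.inr (List.mem_cons_of_mem _ (List.mem_append_right _ hxq))) 2 (by norm_num)
          have s3 := hidx β hβ.toClX (p ++ U ++ y :: V1 ++ [x, x]) (V2 ++ q) y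
            (Or.inr (List.mem_append_right _ hyq)) 2 (by norm_num)
          have e1 : (p ++ U) ++ y :: ((V1 ++ [x]) ++ y :: (V2 ++ q)) =
              (p ++ U ++ y :: V1) ++ x :: (y :: (V2 ++ q)) := by simp
          have e2 : (p ++ U ++ y :: V1) ++ (List.replicate 2 x ++ (y :: (V2 ++ q))) =
              (p ++ U ++ y :: V1 ++ [x, x]) ++ y :: (V2 ++ q) := by simp [List.replicate]
          have e3 : (p ++ U ++ y :: V1 ++ [x, x]) ++ (List.replicate 2 y ++ (V2 ++ q)) =
              p ++ (U ++ y :: V1 ++ [x, x, y, y] ++ V2) ++ q := by simp [List.replicate]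
          rw [e1] at s1
          rw [e2] at s2
          rw [e3] at s3
          rw [e0]
          exact β.trans s1 (β.trans s2 s3)
    · -- only `x`
      have hcy : hv (l.count y) = 0 := hv_zero (List.count_eq_zero.2 hy)
      obtain ⟨U, V, hUV⟩ := List.append_of_mem hx
      have hm : mid x y l false = [x, x] := by
        unfold mid
        rw [hcx, hcy]
        rfl
      refine ⟨U, V, false, ?_, ?_⟩
      · intro c
        rw [hm, hUV]
        simp only [List.count_append, List.count_cons, List.count_nil]
        omega
      · intro p q _ h1 _ _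
        rw [hm]
        have h2 := hidx β hβ.toClX (p ++ U) (V ++ q) x (by
          rcases h1 with h1 | h1
          · exact Or.inl (List.mem_append_left _ h1)
          · exact Or.inr (List.mem_append_right _ h1)) 2 (by norm_num)
        have e1 : p ++ l ++ q = (p ++ U) ++ x :: (V ++ q) := by
          rw [hUV]
          simp
        have e2 : p ++ (U ++ [x, x] ++ V) ++ q =
            (p ++ U) ++ (List.replicate 2 x ++ (V ++ q)) := by
          simp [List.replicate]
        rw [e1, e2]
        exact h2
  · have hcx : hv (l.count x) = 0 := hv_zero (List.count_eq_zero.2 hx)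
    by_cases hy : y ∈ l
    · -- only `y`
      have hcy : hv (l.count y) = 2 := hv_pos (Nat.pos_iff_ne_zero.1 (List.count_pos_iff.2 hy))
      obtain ⟨U, V, hUV⟩ := List.append_of_mem hy
      have hm : mid x y l false = [y, y] := by
        unfold mid
        rw [hcx, hcy]
        rfl
      refine ⟨U, V, false, ?_, ?_⟩
      · intro c
        rw [hm, hUV]
        simp only [List.count_append, List.count_cons, List.count_nil]
        omega
      · intro p q _ _ h1 _
        rw [hm]
        have h2 := hidx β hβ.toClX (p ++ U) (V ++ q) y (by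
          rcases h1 with h1 | h1
          · exact Or.inl (List.mem_append_left _ h1)
          · exact Or.inr (List.mem_append_right _ h1)) 2 (by norm_num)
        have e1 : p ++ l ++ q = (p ++ U) ++ y :: (V ++ q) := by
          rw [hUV]
          simp
        have e2 : p ++ (U ++ [y, y] ++ V) ++ q =
            (p ++ U) ++ (List.replicate 2 y ++ (V ++ q)) := by
          simp [List.replicate]
        rw [e1, e2]
        exact h2
    · -- neither
      have hcy : hv (l.count y) = 0 := hv_zero (List.count_eq_zero.2 hy)
      have hm : mid x y l false = [] := by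
        unfold mid
        rw [hcx, hcy]
        rfl
      refine ⟨l, [], false, ?_, ?_⟩
      · intro c
        rw [hm]
        simp
      · intro p q _ _ _ _
        rw [hm, List.append_nil, List.append_nil]
        exact RR.refl _

theorem deg_mono {k : ℕ} {a b : ℕ → ℕ} (h : ∀ j ≤ k, a j ≤ b j) : deg k a ≤ deg k b := by
  unfold deg
  exact Finset.sum_le_sum (fun j hj => h j (by rw [Finset.mem_range] at hj; omega))

/-- counts after a change of one block -/
theorem cntU {k : ℕ} {C : ℕ → List ℕ} (hC : OkB k C) {i : ℕ} (hi : i ≤ k) {L : List ℕ}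
    (hL : ∀ c, (C i).count c ≤ L.count c) {c : ℕ} (hc : ∃ j ≤ k, c ∈ C j) :
    2 ≤ (pre C i ++ L ++ suf C i (k - i)).count c := by
  obtain ⟨j, hj, hm⟩ := hc
  rw [← asm_update hi C L, count_asm (hC.ok j hj c hm)]
  refine le_trans (hC.ml j hj c hm) (deg_mono ?_)
  intro j' _
  by_cases h : j' = i
  · rw [h, Function.update_self]
    exact hL c
  · rw [Function.update_of_ne h]

/-- all the blocks outside `i` -/
theorem outB (hblr : BlrStmt) (hidx : IdxStmt) (hewl : EwlStmt) {β : FIC} (hβ : ClW β) {k : ℕ}
    {C : ℕ → List ℕ} (hC : OkB k C) {i : ℕ} (hi : i ≤ k) {x y : ℕ}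
    (hx : ∀ j, i < j → j ≤ k → x ∉ C j) :
    ∃ (P Q : ℕ → List ℕ) (e : ℕ → Bool), ∀ L : List ℕ, (∀ c, (C i).count c ≤ L.count c) →
      x ∈ L → y ∈ L → RR β (asm k (Function.update C i L))
        (asm k (Function.update (fun j => P j ++ mid x y (C j) (e j) ++ Q j) i L)) := by
  choose P Q e h1 h2 using fun j => oneBlock hidx hewl hβ x y (C j)
  refine ⟨P, Q, e, ?_⟩
  intro L hL hxL hyL
  obtain ⟨T, hT⟩ : ∃ T : ℕ → List ℕ, T = fun j => P j ++ mid x y (C j) (e j) ++ Q j := ⟨_, rfl⟩
  have hTj : ∀ j, T j = P j ++ mid x y (C j) (e j) ++ Q j := fun j => by rw [hT]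
  rw [← hT]
  obtain ⟨B, hB⟩ : ∃ B, B = Function.update C i L := ⟨_, rfl⟩
  obtain ⟨B', hB'⟩ : ∃ B', B' = Function.update T i L := ⟨_, rfl⟩
  rw [← hB, ← hB']
  have b1 : B i = L := by rw [hB, Function.update_self]
  have b2 : B' i = L := by rw [hB', Function.update_self]
  have b3 : ∀ j, j ≠ i → B j = C j := fun j hj => by rw [hB, Function.update_of_ne hj]
  have b4 : ∀ j, j ≠ i → B' j = T j := fun j hj => by rw [hB', Function.update_of_ne hj]
  have hcnt : ∀ j c, (B j).count c ≤ (B' j).count c := by
    intro j c
    by_cases h : j = i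
    · rw [h, b1, b2]
    · rw [b3 j h, b4 j h, hTj]
      exact h1 j c
  apply hblr
  intro m hm
  by_cases hmi : m = i
  · have e1 : (fun j => if j < m then B' j else B j) =
        fun j => if j < m + 1 then B' j else B j := by
      funext j
      rcases lt_trichotomy j m with h | h | h
      · rw [if_pos h, if_pos (by omega)]
      · rw [if_neg (by omega), if_pos (by omega), h, hmi, b1, b2]
      · rw [if_neg (by omega), if_neg (by omega)]
    rw [e1]
    exact RR.refl _
  · obtain ⟨F, hF⟩ : ∃ F : ℕ → List ℕ, F = fun j => if j < m then B' j else B j := ⟨_, rfl⟩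
    have hFj : ∀ j, F j = if j < m then B' j else B j := fun j => by rw [hF]
    have hFm : F m = C m := by
      rw [hFj, if_neg (by omega), b3 m hmi]
    have hFi : F i = L := by
      rw [hFj]
      split
      · exact b2
      · exact b1
    have e2 : (fun j => if j < m + 1 then B' j else B j) = Function.update F m (T m) := by
      funext j
      rcases lt_trichotomy j m with h | h | h
      · rw [if_pos (by omega), Function.update_of_ne (by omega), hFj, if_pos h]
      · rw [if_pos (by omega), h, Function.update_self, b4 m hmi]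
      · rw [if_neg (by omega), Function.update_of_ne (by omega), hFj, if_neg (by omega)]
    rw [e2, ← hF, asm_update hm, asm_split hm F, hFm, hTj]
    have hmemx : ∀ z, z ∈ L → (m < i → z ∈ suf F m (k - m)) ∧ (i < m → z ∈ pre F m) := by
      intro z hz
      constructor
      · intro h
        exact mem_suf.2 (Or.inr ⟨i, h, by omega, by rw [hFi]; exact hz⟩)
      · intro h
        exact mem_pre.2 (Or.inr ⟨i, h, by rw [hFi]; exact hz⟩)
    have hor : ∀ z, z ∈ L → z ∈ pre F m ∨ z ∈ suf F m (k - m) := by
      intro z hz
      rcases lt_or_gt_of_ne hmi with h | h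
      · exact Or.inr ((hmemx z hz).1 h)
      · exact Or.inl ((hmemx z hz).2 h)
    refine h2 m _ _ ?_ (hor x hxL) (hor y hyL) ?_
    · intro hxm _
      have h3 : m < i := by
        by_contra hcon
        exact hx m (by omega) hm hxm
      exact ⟨(hmemx x hxL).1 h3, (hmemx y hyL).1 h3⟩
    · intro c hc
      have hns : NS k c := hC.ok m hm c hc
      rw [← hFm, ← asm_split hm F, count_asm hns]
      refine le_trans (hC.ml m hm c hc) (deg_mono ?_)
      intro j _
      have h3 : (C j).count c ≤ (B j).count c := by
        by_cases h : j = i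
        · rw [h, b1]
          exact hL c
        · rw [b3 j h]
      refine le_trans h3 ?_
      rw [hFj]
      split
      · exact hcnt j c
      · exact le_rfl

theorem blkOk_cb {k : ℕ} {a b : ℕ → ℕ} {e : ℕ → Bool} {i : ℕ} {l : List ℕ}
    (hl : ∀ c ∈ l, c = 0 ∨ c = 1) : BlkOk k (cb a b e i l) := by
  intro j _ c hc
  have h1 : c = 0 ∨ c = 1 := by
    unfold cb at hc
    by_cases h : j = i
    · rw [if_pos h] at hc
      exact hl c hc
    · rw [if_neg h] at hc
      unfold bl at hc
      by_cases h2 : e j = true
      · rw [if_pos h2, List.mem_append] at hc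
        rcases hc with hc | hc
        · exact Or.inr (List.eq_of_mem_replicate hc)
        · exact Or.inl (List.eq_of_mem_replicate hc)
      · rw [if_neg h2, List.mem_append] at hc
        rcases hc with hc | hc
        · exact Or.inl (List.eq_of_mem_replicate hc)
        · exact Or.inr (List.eq_of_mem_replicate hc)
  rintro ⟨h2, _⟩
  omega

theorem xchW (hblr : BlrStmt) (hidx : IdxStmt) (hewl : EwlStmt) {β : FIC} (hβ : ClW β)
    (θ : FIC) (hle : β ≤ θ) (k : ℕ) (C : ℕ → List ℕ) (hC : OkB k C) (i : ℕ) (hi : i ≤ k)
    (A D : List ℕ) (x y : ℕ) (hCi : C i = A ++ x :: y :: D) (hxy : x ≠ y) (hxA : x ∈ A)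
    (hyD : y ∈ D)
    (hV : ¬ VW k (ty C x) (ty C y) i ∨ TE θ k (ty C x) (ty C y) i) :
    RR θ (asm k C) (asm k (Function.update C i (A ++ y :: x :: D))) := by
  have hxi : x ∈ C i := by
    rw [hCi]
    exact List.mem_append_left _ hxA
  have hyi : y ∈ C i := by
    rw [hCi]
    exact List.mem_append_right _ (List.mem_cons_of_mem _ List.mem_cons_self)
  obtain ⟨A1, A2, hA⟩ := List.append_of_mem hxA
  have hCi' : ∀ c, c ∈ A2 ∨ c = y ∨ c = x ∨ c ∈ D → c ∈ C i := by
    intro c hc
    rw [hCi, hA]
    simp only [List.mem_append, List.mem_cons]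
    tauto
  by_cases hj : ∃ j, i < j ∧ j ≤ k ∧ x ∈ C j
  · obtain ⟨j, hij, hjk, hxj⟩ := hj
    have hxs : x ∈ suf C i (k - i) := mem_suf.2 (Or.inr ⟨j, hij, by omega, hxj⟩)
    have e1 : asm k C = (pre C i ++ A1) ++ x :: (A2 ++ x :: (y :: (D ++ suf C i (k - i)))) := by
      rw [asm_split hi C, hCi, hA]
      simp
    have e2 : asm k (Function.update C i (A ++ y :: x :: D)) =
        (pre C i ++ A1) ++ x :: ((A2 ++ [y]) ++ x :: (D ++ suf C i (k - i))) := by
      rw [asm_update hi C, hA]
      simp
    have e3 : (pre C i ++ A1) ++ x :: (A2 ++ (y :: (D ++ suf C i (k - i)))) =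
        (pre C i ++ A1) ++ x :: ((A2 ++ [y]) ++ (D ++ suf C i (k - i))) := by simp
    have hcount : ∀ c, c ∈ A2 ∨ c = y →
        2 ≤ ((pre C i ++ A1) ++ x :: (A2 ++ (y :: (D ++ suf C i (k - i))))).count c := by
      intro c hc
      have hci : c ∈ C i := hCi' c (by tauto)
      have h2 : 2 ≤ (asm k C).count c := by
        rw [count_asm (hC.ok i hi c hci)]
        exact hC.ml i hi c hci
      by_cases hcx : c = x
      · subst hcx
        have h3 : 0 < (suf C i (k - i)).count c := List.count_pos_iff.2 hxs
        simp only [List.count_append, List.count_cons_self]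
        have h4 : List.count c (y :: (D ++ suf C i (k - i))) =
            (D ++ suf C i (k - i)).count c := List.count_cons_of_ne (Ne.symm hxy)
        rw [h4, List.count_append]
        omega
      · rw [e1] at h2
        have h5 : x ≠ c := fun h => hcx h.symm
        simp only [List.count_append, List.count_cons_of_ne h5] at h2 ⊢
        exact h2
    have s1 := hewl β hβ A2 (pre C i ++ A1) (y :: (D ++ suf C i (k - i))) x
      (List.mem_cons_of_mem _ (List.mem_append_right _ hxs)) (fun c hc => hcount c (Or.inl hc))
    have s2 := hewl β hβ (A2 ++ [y]) (pre C i ++ A1) (D ++ suf C i (k - i)) x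
      (List.mem_append_right _ hxs) (by
        intro c hc
        rw [← e3]
        apply hcount
        simpa only [List.mem_append, List.mem_cons, List.not_mem_nil, or_false] using hc)
    rw [← e3] at s2
    rw [e1, e2]
    exact hle _ _ (β.trans s1.symm s2)
  · push Not at hj
    have hxj : ∀ j, i < j → j ≤ k → x ∉ C j := fun j h1 h2 => hj j h1 h2
    have hVW : VW k (ty C x) (ty C y) i := by
      refine ⟨hi, ?_, ?_, ?_⟩
      · exact Nat.pos_iff_ne_zero.1 (List.count_pos_iff.2 hxi)
      · exact Nat.pos_iff_ne_zero.1 (List.count_pos_iff.2 hyi)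
      · intro j h1 h2
        exact List.count_eq_zero.2 (hxj j h1 h2)
    have hTE : TE θ k (ty C x) (ty C y) i := by
      rcases hV with h | h
      · exact absurd hVW h
      · exact h
    obtain ⟨P, Q, e, hout⟩ := outB hblr hidx hewl hβ hC hi (x := x) (y := y) hxj
    obtain ⟨T, hT⟩ : ∃ T : ℕ → List ℕ, T = fun j => P j ++ mid x y (C j) (e j) ++ Q j :=
      ⟨_, rfl⟩
    rw [← hT] at hout
    have hTj : ∀ j, T j = P j ++ mid x y (C j) (e j) ++ Q j := fun j => by rw [hT]
    have hI : Itr β := itrW hewl hβ
    -- step 1
    have m1 : ∀ c, (C i).count c ≤ (A ++ [x, x, y, y] ++ D).count c := by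
      intro c
      rw [hCi]
      simp only [List.count_append, List.count_cons, List.count_nil]
      omega
    have m2 : ∀ c, (C i).count c ≤ (A ++ [x, y, x, y] ++ D).count c := by
      intro c
      rw [hCi]
      simp only [List.count_append, List.count_cons, List.count_nil]
      omega
    have m3 : ∀ c, (C i).count c ≤ (A ++ [y, x, y] ++ D).count c := by
      intro c
      rw [hCi]
      simp only [List.count_append, List.count_cons, List.count_nil]
      omega
    have m4 : ∀ c, (C i).count c ≤ (A ++ [y, x] ++ D).count c := by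
      intro c
      rw [hCi]
      simp only [List.count_append, List.count_cons, List.count_nil]
      omega
    have t1 : RR β (asm k C) (asm k (Function.update C i (A ++ [x, x, y, y] ++ D))) := by
      have s1 := hidx β hβ.toClX (pre C i ++ A) (y :: (D ++ suf C i (k - i))) x
        (Or.inl (List.mem_append_right _ hxA)) 2 (by norm_num)
      have s2 := hidx β hβ.toClX (pre C i ++ A ++ [x, x]) (D ++ suf C i (k - i)) y
        (Or.inr (List.mem_append_left _ hyD)) 2 (by norm_num)
      have e1 : asm k C = (pre C i ++ A) ++ x :: (y :: (D ++ suf C i (k - i))) := by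
        rw [asm_split hi C, hCi]
        simp
      have e2 : (pre C i ++ A) ++ (List.replicate 2 x ++ (y :: (D ++ suf C i (k - i)))) =
          (pre C i ++ A ++ [x, x]) ++ y :: (D ++ suf C i (k - i)) := by
        simp [List.replicate]
      have e3 : (pre C i ++ A ++ [x, x]) ++ (List.replicate 2 y ++ (D ++ suf C i (k - i))) =
          asm k (Function.update C i (A ++ [x, x, y, y] ++ D)) := by
        rw [asm_update hi C]
        simp [List.replicate]
      rw [e2] at s1
      rw [e3] at s2
      rw [e1]
      exact β.trans s1 s2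
    have t2 : RR β (asm k (Function.update C i (A ++ [x, x, y, y] ++ D)))
        (asm k (Function.update T i (A ++ [x, x, y, y] ++ D))) := by
      apply hout _ m1
      · simp [hxA]
      · simp [hyD]
    have t4 : RR β (asm k (Function.update C i (A ++ [x, y, x, y] ++ D)))
        (asm k (Function.update T i (A ++ [x, y, x, y] ++ D))) := by
      apply hout _ m2
      · simp [hxA]
      · simp [hyD]
    have t3 : RR θ (asm k (Function.update T i (A ++ [x, x, y, y] ++ D)))
        (asm k (Function.update T i (A ++ [x, y, x, y] ++ D))) := by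
      have h0 := hTE e
      have h1 := rr_ins θ (Function.update P i A) (Function.update Q i D) (hh x y)
        (blkOk_cb (by intro c hc; simp at hc; tauto)) (blkOk_cb (by intro c hc; simp at hc; tauto))
        h0
      have key : ∀ l : List ℕ, (fun j => Function.update P i A j ++
          (cb (ty C x) (ty C y) e i l j).flatMap (hh x y) ++ Function.update Q i D j) =
          Function.update T i (A ++ l.flatMap (hh x y) ++ D) := by
        intro l
        funext j
        by_cases h : j = i
        · subst h
          rw [Function.update_self, Function.update_self, Function.update_self]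
          unfold cb
          rw [if_pos rfl]
        · rw [Function.update_of_ne h, Function.update_of_ne h, Function.update_of_ne h, hTj]
          unfold cb
          rw [if_neg h]
          rfl
      rw [key, key] at h1
      exact h1
    -- remove the first `x`
    have t5 : RR β (asm k (Function.update C i (A ++ [y, x, y] ++ D)))
        (asm k (Function.update C i (A ++ [x, y, x, y] ++ D))) := by
      have e1 : asm k (Function.update C i (A ++ [y, x, y] ++ D)) =
          (pre C i ++ A1) ++ x :: (A2 ++ ([y] ++ x :: (y :: (D ++ suf C i (k - i))))) := by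
        rw [asm_update hi C, hA]
        simp
      have e2 : asm k (Function.update C i (A ++ [x, y, x, y] ++ D)) =
          (pre C i ++ A1) ++ x :: (A2 ++ x :: ([y] ++ x :: (y :: (D ++ suf C i (k - i))))) := by
        rw [asm_update hi C, hA]
        simp
      rw [e1, e2]
      apply hI
      intro c hc
      rw [← e1, asm_update hi C]
      refine cntU hC hi m3 ⟨i, hi, hCi' c ?_⟩
      rcases hc with h | h
      · exact Or.inl h
      · rw [List.mem_singleton] at h
        exact Or.inr (Or.inl h)
    obtain ⟨D1, D2, hD⟩ := List.append_of_mem hyD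
    have t6 : RR β (asm k (Function.update C i (A ++ [y, x] ++ D)))
        (asm k (Function.update C i (A ++ [y, x, y] ++ D))) := by
      have e1 : asm k (Function.update C i (A ++ [y, x] ++ D)) =
          (pre C i ++ A) ++ y :: ([x] ++ (D1 ++ y :: (D2 ++ suf C i (k - i)))) := by
        rw [asm_update hi C, hD]
        simp
      have e2 : asm k (Function.update C i (A ++ [y, x, y] ++ D)) =
          (pre C i ++ A) ++ y :: ([x] ++ y :: (D1 ++ y :: (D2 ++ suf C i (k - i)))) := by
        rw [asm_update hi C, hD]
        simp
      rw [e1, e2]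
      apply hI
      intro c hc
      rw [← e1, asm_update hi C]
      refine cntU hC hi m4 ⟨i, hi, hCi' c ?_⟩
      rcases hc with h | h
      · rw [List.mem_singleton] at h
        exact Or.inr (Or.inr (Or.inl h))
      · exact Or.inr (Or.inr (Or.inr (by rw [hD]; exact List.mem_append_left _ h)))
    have e9 : A ++ y :: x :: D = A ++ [y, x] ++ D := by simp
    rw [e9]
    refine θ.trans (hle _ _ (β.trans t1 t2)) (θ.trans t3 ?_)
    exact hle _ _ (β.trans t4.symm (β.trans t5.symm t6.symm))

theorem xcw (hblr : BlrStmt) (hidx : IdxStmt) (hewl : EwlStmt) : XcwStmt := by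
  refine ⟨visW, ?_⟩
  intro β hβ
  exact { toClX := hβ.toClX
          itr := itrW hewl hβ
          xch := by
            intro θ hle k C hC i hi A D x y hCi hxy hxA _ _ hyD hV
            exact xchW hblr hidx hewl hβ θ hle k C hC i hi A D x y hCi hxy hxA hyD hV }

end Pool.Agent.MWS.H67
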